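import Pool.Agent.Q82.DigitDens
import Pool.Agent.Q82.Shift2
import Pool.Agent.Q82.ShiftSpaces

/-!
# MP_39b2af_an : weighted backward shifts with an exact distributional chaos exponent

For every `λ ∈ (0, 1]` there is one bounded positive weight sequence for which the weighted backward
shift on every `ℓ^p` (`1 ≤ p < ∞`) and on `c_0` is densely `λ`-distributionally chaotic and is not
`λ'`-distributionally chaotic for any `λ' ∈ (0, λ)`.
-/

namespace Pool.Agent.Results.MP_39b2af_an.ExactExponent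

open Filter
open scoped ENNReal ZeroAtInfty

noncomputable section

/-- The lower `q`-density `liminf_n |A ∩ [1, n^q]| / n` of a set `A` of positive integers. -/
def lowerDensity (q : ℝ) (A : Set ℕ) : ℝ≥0∞ :=
  liminf (fun n : ℕ =>
    (({j : ℕ | j ∈ A ∧ 1 ≤ j ∧ (j : ℝ) ≤ (n : ℝ) ^ q}.ncard : ℕ) : ℝ≥0∞) / (n : ℝ≥0∞)) atTop

variable {K X : Type} [RCLike K] [NormedAddCommGroup X] [NormedSpace K X]

/-- The two conditions on the pairs of distinct points of `S`, with one `σ > 0` for all pairs. -/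
def Scrambled (T : X →L[K] X) (lam : ℝ) (S : Set X) : Prop :=
  ∃ σ : ℝ, 0 < σ ∧ ∀ x ∈ S, ∀ y ∈ S, x ≠ y →
    lowerDensity (1 / lam) {j | ‖(T ^ j) x - (T ^ j) y‖ < σ} = 0 ∧
    ∀ ε : ℝ, 0 < ε → lowerDensity (1 / lam) {j | ε < ‖(T ^ j) x - (T ^ j) y‖} = 0

/-- `λ`-distributional chaos. -/
def Chaotic (T : X →L[K] X) (lam : ℝ) : Prop := ∃ S : Set X, ¬ S.Countable ∧ Scrambled T lam S

/-- Dense `λ`-distributional chaos. -/
def DenselyChaotic (T : X →L[K] X) (lam : ℝ) : Prop :=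
  ∃ S : Set X, ¬ S.Countable ∧ Dense S ∧ Scrambled T lam S

/-- Densely `λ`-distributionally chaotic, and not `λ'`-distributionally chaotic for any
`λ' ∈ (0, λ)`. -/
def HasExactExponent (T : X →L[K] X) (lam : ℝ) : Prop :=
  DenselyChaotic T lam ∧ ∀ lam' : ℝ, 0 < lam' → lam' < lam → ¬ Chaotic T lam'

/-- `X` is a space whose elements `x` have coordinates `coe x 0, coe x 1, …`.  The weighted backward
shift `(T x)_i = ω_{i+1} x_{i+1}` (that is `T e_0 = 0`, `T e_i = ω_i e_{i-1}`) is a bounded operator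
on `X`, and it has the exact exponent `λ`. -/
def ShiftHasExactExponent (coe : X → ℕ → K) (ω : ℕ → ℝ) (lam : ℝ) : Prop :=
  ∃ T : X →L[K] X, (∀ x i, coe (T x) i = (ω (i + 1) : K) * coe x (i + 1)) ∧ HasExactExponent T lam

open Q82.Digit Q82.Shift in
lemma core {lam : ℝ} (h0 : 0 < lam) (h1 : lam ≤ 1) [CompleteSpace X] (s : SeqSp K X)
    (T : X →L[K] X) (hT : IsSh s (fun n => (2 : ℝ) ^ (w lam n)) T) : HasExactExponent T lam := by
  have hB : ∀ n, 0 < (fun n => (2 : ℝ) ^ (w lam n)) n := fun n => by positivity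
  have hR : ∀ j, j ∉ R lam → ((j : ℝ) + 1) ^ 3 ≤ (fun n => (2 : ℝ) ^ (w lam n)) j := by
    intro j hj
    exact not_lt.1 hj
  have hJ : ∀ j ∈ W lam 1, ∀ n, (fun n => (2 : ℝ) ^ (w lam n)) (n + j) ≤
      2 * (fun n => (2 : ℝ) ^ (w lam n)) n := by
    intro j hj n
    simp only
    rw [← pow_succ']
    exact pow_le_pow_right₀ (by norm_num) (w_add hj)
  constructor
  · obtain ⟨S, hS1, hS2, hS3⟩ := dense_chaos s hB hT hR (q := 1 / lam)
      (by rw [le_div_iff₀ h0]; linarith) (fun c ε hε => small h0 c hε)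
    exact ⟨S, hS1, hS2, hS3⟩
  · rintro lam' hl0 hl1 ⟨S, hS, σ, hσ, h⟩
    obtain ⟨x, hx, y, hy, hxy⟩ : S.Nontrivial := by
      rw [← Set.not_subsingleton_iff]
      intro hsub
      exact hS hsub.countable
    exact not_zero hB hT hJ (fun c => big hl0 hl1 h1 c) x y hσ (h x hx y hy hxy).1

/-- **Answer: yes, for every `λ ∈ (0, 1]` and every space**, with a weight sequence which depends
only on `λ`.  The coordinates are indexed by `0, 1, 2, …`: the shift is `T e_0 = 0`,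
`T e_i = ω_i e_{i-1}` for `i ≥ 1`, that is `(T x)_i = ω_{i+1} x_{i+1}`. -/
theorem result (K : Type) [RCLike K] (lam : ℝ) (h0 : 0 < lam) (h1 : lam ≤ 1) :
    ∃ ω : ℕ → ℝ, (∀ n, 0 < ω n) ∧ BddAbove (Set.range ω) ∧
      (∀ (p : ℝ≥0∞) [Fact (1 ≤ p)], p ≠ ∞ →
        ShiftHasExactExponent (K := K) (X := lp (fun _ : ℕ => K) p) (fun x => x) ω lam) ∧
      ShiftHasExactExponent (K := K) (X := C₀(ℕ, K)) (fun x => x) ω lam := by
  have hB : ∀ n, 0 < (fun n => (2 : ℝ) ^ (Q82.Digit.w lam n)) n := fun n => by positivity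
  have hB2 : ∀ n, (fun n => (2 : ℝ) ^ (Q82.Digit.w lam n)) (n + 1) ≤
      2 * (fun n => (2 : ℝ) ^ (Q82.Digit.w lam n)) n := by
    intro n
    simp only
    rw [← pow_succ']
    exact pow_le_pow_right₀ (by norm_num) (Q82.Digit.w_add Q82.Digit.one_mem)
  refine ⟨fun n => (2 : ℝ) ^ (Q82.Digit.w lam n) / (2 : ℝ) ^ (Q82.Digit.w lam (n - 1)),
    fun n => by positivity, ⟨2, ?_⟩, ?_, ?_⟩
  · rintro _ ⟨n, rfl⟩
    simp only
    rw [div_le_iff₀ (by positivity)]
    rcases Nat.eq_zero_or_pos n with hn | hn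
    · subst hn
      have : (0 : ℝ) < 2 ^ (Q82.Digit.w lam 0) := by positivity
      simp only [zero_tsub]
      linarith
    · have := hB2 (n - 1)
      simp only at this
      rwa [Nat.sub_add_cancel hn] at this
  · intro p _ hp
    obtain ⟨T, hT⟩ := Q82.Shift.exists_T (Q82.Shift.lpSp K p hp) _ hB hB2
    exact ⟨T, fun x i => hT x i, core h0 h1 _ T hT⟩
  · obtain ⟨T, hT⟩ := Q82.Shift.exists_T (Q82.Shift.c0Sp K) _ hB hB2
    exact ⟨T, fun x i => hT x i, core h0 h1 _ T hT⟩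

end

end Pool.Agent.Results.MP_39b2af_an.ExactExponent
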